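import Pool.Agent.P8H71.SK.Cj
import Pool.Agent.P8H45.SK.Gen
import Pool.Agent.P8H24.SK.One
import Pool.Agent.P8H73.SK.Lim
import Pool.Agent.P8H41.SK.Cnj
import Pool.Agent.P8H85.SK.Grp
import Pool.Agent.P8H43.SK.Clo
import Pool.Agent.P8H78.SK.Cont
import Pool.Agent.P8H73.SK.Len
import Pool.Agent.P8H76.SK.Erg
import Pool.Agent.P8H42.SK.Rec
import Pool.Agent.P8H88.SK.Per
import Pool.Agent.P8H4.SK.Pos
import Pool.Agent.P8H38.SK.Sub
import Pool.Agent.P8H55.SK.Rig
import Pool.Agent.P8H71.SK.Main2

/-!
# Skew products with values in `SL(d, ℝ)`: two criteria for the ergodicity, and an open set of simple functions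

Let `d ≥ 2`, let `m` be the invariant probability measure on `SL(d, ℝ) / SL(d, ℤ)`, let `T` be an ergodic measure preserving map
of a probability space `(Y, ν)` and `φ : Y → SL(d, ℝ)` a measurable function. The cocycle is `φ_n(y) = φ(T^(n-1) y) ⋯ φ(y)`.

* If `φ_n(y)` tends to infinity in `SL(d, ℝ)` for almost every `y` (for instance if the top Lyapunov exponent is positive), then the
  skew product `(y, x) ↦ (T y, φ(y) x)` is ergodic.
* If `T^(n_k) → id` for a sequence `n_k` (by Veech such sequences exist for almost all interval exchanges), then the skew product is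
  ergodic unless `φ_(n_k)` is tight, i.e. bounded in probability.
* So for EVERY ergodic interval exchange `T` of `n` intervals (by Masur and Veech almost all interval exchanges with an irreducible
  permutation are ergodic) and EVERY simple function `φ` whose values `g_1, …, g_n` have a common conjugate in the set of the
  matrices with positive entries, the skew product `T_φ` is ergodic. These tuples form a nonempty open subset of `SL(d, ℝ)^n`.

The proof does not use representation theory. Let `S` be an invariant set and `S_y` its sections. By Poincaré recurrence in the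
measure algebra (or by the rigidity), for almost every `y` some sections `S_(T^n y) = φ_n(y) S_y` are close to `S_y`, so
`E(φ_n(y)) → 0` along a subsequence, where `E(g) = m(g⁻¹ S_y ∆ S_y)`, while `φ_n(y) → ∞`. A version of the Mautner phenomenon for such functions `E` gives
`E = 0`, and `SL(d, ℝ)` acts ergodically.

Authors: helper4, helper24, helper38, helper41, helper42, helper43, helper45, helper55, helper71, helper73, helper76, helper78,
helper85, helper88, helper91.
-/

set_option autoImplicit false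

open MeasureTheory Set Filter Topology

namespace Pool.Agent.Results.MP_fb74c1_an.TransientCocycles

/-- The group `SL(d, ℝ)`. -/
abbrev SLR (d : ℕ) := Matrix.SpecialLinearGroup (Fin d) ℝ

/-- The subgroup `SL(d, ℤ)` of `SL(d, ℝ)`. -/
def SLZ (d : ℕ) : Subgroup (SLR d) := (Matrix.SpecialLinearGroup.map (Int.castRingHom ℝ) : _ →* SLR d).range

/-- The skew product `T_φ (y, x) = (T y, φ(y) x)` on `Y × SL(d, ℝ) / SL(d, ℤ)`. -/
def skewProduct {d : ℕ} {Y : Type} (T : Y → Y) (φ : Y → SLR d) (p : Y × (SLR d ⧸ SLZ d)) : Y × (SLR d ⧸ SLZ d) :=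
  (T p.1, φ p.1 • p.2)

/-- The cocycle `φ_n(y) = φ(T^(n-1) y) ⋯ φ(T y) φ(y)`. -/
def cocycle {d : ℕ} {Y : Type} (T : Y → Y) (φ : Y → SLR d) : ℕ → Y → SLR d
  | 0, _ => 1
  | n + 1, y => φ (T^[n] y) * cocycle T φ n y

/-- The sequence `g` of matrices tends to infinity: for each `C` all but finitely many `g k` have an entry larger than `C` in absolute
value. -/
def Diverges {d : ℕ} (g : ℕ → SLR d) : Prop := ∀ C : ℝ, ∀ᶠ k in atTop, ∃ a b, C < |(g k).1 a b|

/-- `T^(n_k) → id`: the measure of `T^(-n_k) A ∆ A` tends to `0` for all measurable sets `A`. -/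
def RigidAlong {Y : Type} [MeasurableSpace Y] (ν : Measure Y) (T : Y → Y) (n : ℕ → ℕ) : Prop :=
  ∀ A : Set Y, MeasurableSet A → Tendsto (fun k => (ν (symmDiff ((T^[n k]) ⁻¹' A) A)).toReal) atTop (𝓝 0)

/-- The tuples `(g_1, …, g_n)` such that for some `h` all entries of all `h⁻¹ g_j h` are positive. -/
def PositiveTuples (d n : ℕ) : Set (Fin n → SLR d) := {g | ∃ h : SLR d, ∀ j a b, 0 < (h⁻¹ * g j * h).1 a b}

/-- On `[0, 1)` the map `T` is the interval exchange of the intervals `I_1, …, I_n` (in this order) of lengths `l j` with the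
permutation `π`: the interval `I_j` is translated to the place given by `π`; and `ix x` is the index of the interval which
contains `x`. -/
def IsExchange {n : ℕ} (l : Fin n → ℝ) (π : Equiv.Perm (Fin n)) (T : ℝ → ℝ) (ix : ℝ → Fin n) : Prop :=
  ∀ x ∈ Ico (0 : ℝ) 1, (∑ i ∈ Finset.univ.filter (fun i => i < ix x), l i) ≤ x ∧
    x < (∑ i ∈ Finset.univ.filter (fun i => i < ix x), l i) + l (ix x) ∧
    T x = x - (∑ i ∈ Finset.univ.filter (fun i => i < ix x), l i) +
      ∑ i ∈ Finset.univ.filter (fun i => π i < π (ix x)), l i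

/-- Let `d ≥ 2` and let `m` be an invariant probability measure on `SL(d, ℝ) / SL(d, ℤ)`.

* If `T` is an ergodic measure preserving map of a probability space and `φ` is measurable with `φ_n(y) → ∞` for almost every `y`, then
  the skew product is ergodic.
* If `T` is ergodic, `T^(n_k) → id`, `φ` is measurable and, for some `c > 0` and every `C`, for infinitely many `k` some entry of
  `φ_(n_k)(y)` is larger than `C` in absolute value with probability at least `c`, then the skew product is ergodic.
* If `φ` is measurable and has finitely many values, with a common conjugate in the set of the matrices with positive entries, then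
  the skew product is ergodic for every ergodic `T`.
* In particular, for all ergodic interval exchanges `T` of `n ≥ 1` intervals of positive lengths with sum `1` and all
  `(g_1, …, g_n)` in the open nonempty set `PositiveTuples d n`, the skew product with the simple function `g_(ix x)` is ergodic. -/
theorem result (d : ℕ) (hd : 2 ≤ d) [MeasurableSpace (SLR d)] [BorelSpace (SLR d)]
    [iX : MeasurableSpace (SLR d ⧸ SLZ d)] [bX : BorelSpace (SLR d ⧸ SLZ d)] (m : Measure (SLR d ⧸ SLZ d)) [pm : IsProbabilityMeasure m]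
    (hm : ∀ g : SLR d, MeasurePreserving (fun x : SLR d ⧸ SLZ d => g • x) m m) :
    (∀ (Y : Type) [MeasurableSpace Y] (ν : Measure Y) [IsProbabilityMeasure ν] (T : Y → Y), Ergodic T ν →
      ∀ φ : Y → SLR d, Measurable φ → (∀ᵐ y ∂ν, Diverges (fun k => cocycle T φ k y)) →
      Ergodic (skewProduct T φ) (ν.prod m)) ∧
    (∀ (Y : Type) [MeasurableSpace Y] (ν : Measure Y) [IsProbabilityMeasure ν] (T : Y → Y), Ergodic T ν →
      ∀ n : ℕ → ℕ, RigidAlong ν T n → ∀ φ : Y → SLR d, Measurable φ → ∀ c : ℝ, 0 < c →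
      (∀ C : ℕ, ∃ᶠ k in atTop, c ≤ (ν {y | ∃ a b, (C : ℝ) < |(cocycle T φ (n k) y).1 a b|}).toReal) →
      Ergodic (skewProduct T φ) (ν.prod m)) ∧
    (∀ (Y : Type) [MeasurableSpace Y] (ν : Measure Y) [IsProbabilityMeasure ν] (T : Y → Y), Ergodic T ν →
      ∀ (n : ℕ) (ix : Y → Fin n), Measurable ix → ∀ g ∈ PositiveTuples d n,
      Ergodic (skewProduct T (fun y => g (ix y))) (ν.prod m)) ∧
    ∀ n : ℕ, IsOpen (PositiveTuples d n) ∧ (PositiveTuples d n).Nonempty ∧
      ∀ (l : Fin n → ℝ) (π : Equiv.Perm (Fin n)), (∀ j, 0 < l j) → ∑ j, l j = 1 → ∀ (T : ℝ → ℝ) (ix : ℝ → Fin n), Measurable ix →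
      IsExchange l π T ix → Ergodic T (volume.restrict (Ico 0 1)) → ∀ g ∈ PositiveTuples d n,
      Ergodic (skewProduct T (fun x => g (ix x))) ((volume.restrict (Ico 0 1)).prod m) := by
  have hgrp := Pool.Agent.P8H85.SK.grp Pool.Agent.P8H45.SK.gen (Pool.Agent.P8H73.SK.lim Pool.Agent.P8H24.SK.one)
    Pool.Agent.P8H41.SK.cnj
  have hlen := Pool.Agent.P8H73.SK.len (Pool.Agent.P8H78.SK.con Pool.Agent.P8H43.SK.clo)
  have hcoc : ∀ {Y : Type} (T : Y → Y) (φ : Y → SLR d) (n : ℕ) (y : Y), cocycle T φ n y = Pool.Agent.P8H71.SK.coc T φ n y := by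
    intro Y T φ n y
    induction n with
    | zero => rfl
    | succ n ih =>
      show φ (T^[n] y) * cocycle T φ n y = φ (T^[n] y) * Pool.Agent.P8H71.SK.coc T φ n y
      rw [ih]
  have h1 : ∀ (Y : Type) [MeasurableSpace Y] (ν : Measure Y) [IsProbabilityMeasure ν] (T : Y → Y), Ergodic T ν →
      ∀ φ : Y → SLR d, Measurable φ → (∀ᵐ y ∂ν, Diverges (fun k => cocycle T φ k y)) →
      Ergodic (skewProduct T φ) (ν.prod m) := by
    intro Y _ ν _ T hT φ hφ hdiv
    have htr : ∀ᵐ y ∂ν, ∀ C : ℝ, ∀ᶠ n in atTop, ∃ a b, C < |(Pool.Agent.P8H71.SK.coc T φ n y).1 a b| := by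
      filter_upwards [hdiv] with y hy C
      have h3 := hy C
      simp only [hcoc] at h3
      exact h3
    exact @Pool.Agent.P8H71.SK.main hgrp hlen Pool.Agent.P8H76.SK.erg Pool.Agent.P8H42.SK.rec d hd _ _ iX bX m pm hm Y _ ν _
      T hT φ hφ htr
  have h2 : ∀ (Y : Type) [MeasurableSpace Y] (ν : Measure Y) [IsProbabilityMeasure ν] (T : Y → Y), Ergodic T ν →
      ∀ (n : ℕ) (ix : Y → Fin n), Measurable ix → ∀ g ∈ PositiveTuples d n,
      Ergodic (skewProduct T (fun y => g (ix y))) (ν.prod m) := by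
    intro Y _ ν _ T hT n ix hix g hg
    refine h1 Y ν T hT _ ((measurable_of_finite g).comp hix) (ae_of_all _ fun y C => ?_)
    simp only [hcoc]
    exact Pool.Agent.P8H71.SK.pos_grow (Pool.Agent.P8H4.SK.pos Pool.Agent.P8H88.SK.per) hd g hg Y T ix y C
  refine ⟨h1, ?_, h2, fun n => ⟨Pool.Agent.P8H71.SK.pos_open d n, Pool.Agent.P8H71.SK.pos_nonempty d n hd, ?_⟩⟩
  · intro Y _ ν _ T hT n hn φ hφ c hc htr
    refine @Pool.Agent.P8H71.SK.main2 hgrp hlen Pool.Agent.P8H76.SK.erg Pool.Agent.P8H55.SK.rig Pool.Agent.P8H38.SK.sub d hd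
      _ _ iX bX m pm hm Y _ ν _ T hT n hn φ hφ c hc ?_
    intro C
    have h3 := htr C
    simp only [hcoc] at h3
    exact h3
  intro l π _ _ T ix hix _ hT g hg
  have : IsProbabilityMeasure ((volume : Measure ℝ).restrict (Ico 0 1)) := ⟨by simp⟩
  exact h2 ℝ _ T hT n ix hix g hg

end Pool.Agent.Results.MP_fb74c1_an.TransientCocycles
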